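import Pool.Agent.MP_6b3e96_gt.H77.Spec

/-!
Functions on the unit square with a mild singularity at the corner: integrability, Fubini,
integration along lines.
-/

open scoped ContDiff Topology RealInnerProductSpace MeasureTheory Real
open Set Filter Metric MeasureTheory Complex

noncomputable section

namespace Pool.Agent.MP_6b3e96_gt.H20

open Pool.Agent.MP_6b3e96_gt.H77

theorem mem_Sq {w : ℂ} : w ∈ Sq ↔ (0 ≤ w.re ∧ w.re ≤ 1) ∧ (0 ≤ w.im ∧ w.im ≤ 1) := Iff.rfl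

theorem mk_mem {s t : ℝ} (hs : s ∈ Icc (0 : ℝ) 1) (ht : t ∈ Icc (0 : ℝ) 1) : (⟨s, t⟩ : ℂ) ∈ Sq :=
  ⟨hs, ht⟩

theorem Sq_closed : IsClosed Sq := isClosed_Icc.reProdIm isClosed_Icc

theorem Sq_meas : MeasurableSet Sq := Sq_closed.measurableSet

theorem Sq_cpt : IsCompact Sq := isCompact_Icc.reProdIm isCompact_Icc

theorem norm_le_two {w : ℂ} (hw : w ∈ Sq) : ‖w‖ ≤ 2 := by
  obtain ⟨⟨h1, h2⟩, h3, h4⟩ := mem_Sq.mp hw
  have := Complex.norm_le_abs_re_add_abs_im w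
  rw [abs_of_nonneg h1, abs_of_nonneg h3] at this
  linarith

theorem norm_le_add {w : ℂ} (hw : w ∈ Sq) : ‖w‖ ≤ w.re + w.im := by
  obtain ⟨⟨h1, h2⟩, h3, h4⟩ := mem_Sq.mp hw
  have := Complex.norm_le_abs_re_add_abs_im w
  rwa [abs_of_nonneg h1, abs_of_nonneg h3] at this

theorem add_pos' {w : ℂ} (hw : w ∈ Sq) (h0 : w ≠ 0) : 0 < w.re + w.im :=
  (norm_pos_iff.mpr h0).trans_le (norm_le_add hw)

theorem add_le_mx (w : ℂ) : w.re + w.im ≤ 2 * mx w := by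
  have h1 : w.re ≤ mx w := le_max_left _ _
  have h2 : w.im ≤ mx w := le_max_right _ _
  linarith

theorem mx_le_add {w : ℂ} (hw : w ∈ Sq) : mx w ≤ w.re + w.im := by
  obtain ⟨⟨h1, h2⟩, h3, h4⟩ := mem_Sq.mp hw
  exact max_le (by linarith) (by linarith)

theorem mx_le_norm (w : ℂ) : mx w ≤ ‖w‖ := max_le (Complex.re_le_norm w) (Complex.im_le_norm w)

theorem mx_pos {w : ℂ} (hw : w ∈ Sq) (h0 : w ≠ 0) : 0 < mx w := by
  have := add_pos' hw h0
  have := add_le_mx w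
  linarith

theorem mx_cont : Continuous mx := Complex.continuous_re.max Complex.continuous_im

/-- Continuous off the corner, with square at most a constant times `‖w‖ ^ (-a)`. -/
def Cl (a : ℕ) (G : ℂ → ℝ) : Prop :=
  ContinuousOn G (Sq \ {0}) ∧ ∃ K, ∀ w ∈ Sq, w ≠ 0 → G w ^ 2 * ‖w‖ ^ a ≤ K

theorem Cl.mono {a b : ℕ} {G : ℂ → ℝ} (h : Cl a G) (hab : a ≤ b) : Cl b G := by
  obtain ⟨hc, K, hK⟩ := h
  obtain ⟨c, rfl⟩ := Nat.exists_eq_add_of_le hab
  refine ⟨hc, K * 2 ^ c, fun w hw h0 => ?_⟩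
  rw [pow_add, ← mul_assoc]
  exact mul_le_mul (hK w hw h0) (pow_le_pow_left₀ (norm_nonneg _) (norm_le_two hw) c)
    (by positivity) ((by positivity : (0 : ℝ) ≤ _).trans (hK w hw h0))

theorem Cl.add {a : ℕ} {F G : ℂ → ℝ} (hF : Cl a F) (hG : Cl a G) : Cl a fun w => F w + G w := by
  obtain ⟨hc, K, hK⟩ := hF
  obtain ⟨hc', K', hK'⟩ := hG
  refine ⟨hc.add hc', 2 * K + 2 * K', fun w hw h0 => ?_⟩
  have h1 := hK w hw h0
  have h2 := hK' w hw h0
  have h3 : 0 ≤ ‖w‖ ^ a := by positivity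
  nlinarith [mul_nonneg (sq_nonneg (F w - G w)) h3]

theorem Cl.mul {a b : ℕ} {F G : ℂ → ℝ} (hF : Cl a F) (hG : Cl b G) :
    Cl (a + b) fun w => F w * G w := by
  obtain ⟨hc, K, hK⟩ := hF
  obtain ⟨hc', K', hK'⟩ := hG
  refine ⟨hc.mul hc', K * K', fun w hw h0 => ?_⟩
  calc (F w * G w) ^ 2 * ‖w‖ ^ (a + b) = (F w ^ 2 * ‖w‖ ^ a) * (G w ^ 2 * ‖w‖ ^ b) := by ring
    _ ≤ K * K' := mul_le_mul (hK w hw h0) (hK' w hw h0) (by positivity)
      ((by positivity : (0 : ℝ) ≤ _).trans (hK w hw h0))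

theorem Cl.of_cont {G : ℂ → ℝ} (h : ContinuousOn G Sq) (a : ℕ) : Cl a G := by
  refine Cl.mono (a := 0) ⟨h.mono sdiff_subset, ?_⟩ (Nat.zero_le a)
  obtain ⟨K, hK⟩ := (Sq_cpt.image_of_continuousOn (h.pow 2)).bddAbove
  exact ⟨K, fun w hw _ => by simpa using hK ⟨w, hw, rfl⟩⟩

theorem Cl.cmul {a : ℕ} {F : ℂ → ℝ} (hF : Cl a F) (c : ℝ) : Cl a fun w => c * F w := by
  simpa using (Cl.of_cont (G := fun _ => c) continuousOn_const 0).mul hF

theorem Cl.sub {a : ℕ} {F G : ℂ → ℝ} (hF : Cl a F) (hG : Cl a G) : Cl a fun w => F w - G w := by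
  simpa [sub_eq_add_neg] using hF.add (hG.cmul (-1))

theorem Cl.div {a : ℕ} {F : ℂ → ℝ} (hF : Cl a F) (c : ℝ) : Cl a fun w => F w / c := by
  simpa [div_eq_inv_mul] using hF.cmul c⁻¹

theorem Cl.sq {a : ℕ} {F : ℂ → ℝ} (hF : Cl a F) : Cl (a + a) fun w => F w ^ 2 := by
  simpa [pow_two] using hF.mul hF

theorem Cl.of_le {G : ℂ → ℝ} {K : ℝ} (h : ContinuousOn G (Sq \ {0}))
    (hK : ∀ w ∈ Sq, w ≠ 0 → |G w| * ‖w‖ ≤ K) : Cl 2 G := by
  refine ⟨h, K ^ 2, fun w hw h0 => ?_⟩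
  rw [← sq_abs, ← mul_pow]
  exact pow_le_pow_left₀ (by positivity) (hK w hw h0) 2

theorem Cl.sq_mx {G : ℂ → ℝ} (h : Cl 2 G) : Cl 2 fun w => G w ^ 2 * mx w := by
  obtain ⟨hc, K, hK⟩ := h
  refine Cl.of_le ((hc.pow 2).mul mx_cont.continuousOn) (K := K) fun w hw h0 => ?_
  rw [abs_of_nonneg (mul_nonneg (sq_nonneg _) (mx_pos hw h0).le)]
  refine le_trans ?_ (hK w hw h0)
  have := mul_le_mul_of_nonneg_left (mx_le_norm w) (mul_nonneg (sq_nonneg (G w)) (norm_nonneg w))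
  nlinarith

theorem ae_ne_zero : ∀ᵐ w : ℂ, w ≠ 0 := by
  have := (countable_singleton (0 : ℂ)).ae_notMem (volume : Measure ℂ)
  simpa using this

theorem Cl.integrable {G : ℂ → ℝ} (h : Cl 2 G) : IntegrableOn G Sq := by
  obtain ⟨hc, K, hK⟩ := h
  have h1 : IntegrableOn (fun w : ℂ => ‖w‖ ^ (-1 : ℝ)) (ball 0 3) := by
    refine integrableOn_ball_of_norm_le_rpow (C := 1) (α := 1) (by simp) (by simp)
      (Eventually.of_forall fun w => by rw [Real.norm_of_nonneg (by positivity), one_mul]) ?_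
    exact (measurable_norm.pow_const _).aestronglyMeasurable
  have hm : MeasurableSet (Sq \ {0}) := Sq_meas.diff (measurableSet_singleton _)
  have h2 : IntegrableOn G (Sq \ {0}) := by
    refine Integrable.mono' ((h1.mono_set fun w hw => ?_).const_mul √K)
      (hc.aestronglyMeasurable hm) ?_
    · rw [mem_ball_zero_iff]
      linarith [norm_le_two hw.1]
    · refine (ae_restrict_iff' hm).mpr (Eventually.of_forall fun w hw => ?_)
      have h0 : 0 < ‖w‖ := norm_pos_iff.mpr hw.2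
      rw [Real.rpow_neg_one, ← div_eq_mul_inv, le_div_iff₀ h0, Real.norm_eq_abs]
      apply Real.le_sqrt_of_sq_le
      rw [mul_pow, sq_abs]
      exact hK w hw.1 hw.2
  exact h2.congr_set_ae (sdiff_ae_eq_self.mpr (measure_mono_null inter_subset_right
    (measure_singleton _))).symm

theorem fub {F : ℂ → ℝ} (hF : IntegrableOn F Sq) :
    (∫ w in Sq, F w = ∫ s in Ioc (0 : ℝ) 1, ∫ t in (0 : ℝ)..1, F ⟨s, t⟩) ∧
    (∫ w in Sq, F w = ∫ t in Ioc (0 : ℝ) 1, ∫ s in (0 : ℝ)..1, F ⟨s, t⟩) ∧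
    IntegrableOn (fun s : ℝ => ∫ t in (0 : ℝ)..1, F ⟨s, t⟩) (Ioc (0 : ℝ) 1) := by
  have hp := Complex.volume_preserving_equiv_real_prod.symm
  have he := Complex.measurableEquivRealProd.symm.measurableEmbedding
  have hs : Complex.measurableEquivRealProd.symm ⁻¹' Sq = Icc (0 : ℝ) 1 ×ˢ Icc (0 : ℝ) 1 := rfl
  have h1 := (hp.integrableOn_comp_preimage he).mpr hF
  have h2 := hp.setIntegral_preimage_emb he F Sq
  rw [hs] at h1 h2
  rw [IntegrableOn, Measure.volume_eq_prod, ← Measure.prod_restrict,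
    ← restrict_Ioc_eq_restrict_Icc] at h1
  rw [Measure.volume_eq_prod, ← Measure.prod_restrict, ← restrict_Ioc_eq_restrict_Icc] at h2
  simp only [intervalIntegral.integral_of_le zero_le_one]
  exact ⟨h2.symm.trans (integral_prod _ h1), h2.symm.trans (integral_prod_symm _ h1),
    h1.integral_prod_left⟩

theorem ne_of_im {s t : ℝ} (ht : 0 < t) : (⟨s, t⟩ : ℂ) ≠ 0 := fun h => ht.ne' (congrArg Complex.im h)

theorem ne_of_re {s t : ℝ} (hs : 0 < s) : (⟨s, t⟩ : ℂ) ≠ 0 := fun h => hs.ne' (congrArg Complex.re h)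

theorem cont1 (t : ℝ) : Continuous fun s : ℝ => (⟨s, t⟩ : ℂ) := by
  simp only [Complex.mk_eq_add_mul_I]
  fun_prop

theorem cont2 (s : ℝ) : Continuous fun t : ℝ => (⟨s, t⟩ : ℂ) := by
  simp only [Complex.mk_eq_add_mul_I]
  fun_prop

theorem Cl.line1 {a : ℕ} {G : ℂ → ℝ} (h : Cl a G) {t : ℝ} (ht : t ∈ Ioc (0 : ℝ) 1) :
    ContinuousOn (fun s : ℝ => G ⟨s, t⟩) (Icc 0 1) :=
  h.1.comp (cont1 t).continuousOn fun _ hs => ⟨mk_mem hs ⟨ht.1.le, ht.2⟩, ne_of_im ht.1⟩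

theorem Cl.line2 {a : ℕ} {G : ℂ → ℝ} (h : Cl a G) {s : ℝ} (hs : s ∈ Ioc (0 : ℝ) 1) :
    ContinuousOn (fun t : ℝ => G ⟨s, t⟩) (Icc 0 1) :=
  h.1.comp (cont2 s).continuousOn fun _ ht => ⟨mk_mem ⟨hs.1.le, hs.2⟩ ht, ne_of_re hs.1⟩

/-- `u₁` is the derivative of `u` along horizontal lines. -/
def D1 (u u₁ : ℂ → ℝ) : Prop :=
  ∀ w ∈ Sq, w ≠ 0 → HasDerivAt (fun x : ℝ => u ⟨x, w.im⟩) (u₁ w) w.re

/-- `u₂` is the derivative of `u` along vertical lines. -/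
def D2 (u u₂ : ℂ → ℝ) : Prop :=
  ∀ w ∈ Sq, w ≠ 0 → HasDerivAt (fun y : ℝ => u ⟨w.re, y⟩) (u₂ w) w.im

theorem D1.of_diff {u : ℂ → ℝ} (h : ∀ w ∈ Sq, w ≠ 0 → DifferentiableAt ℝ u w) : D1 u (d1 u) := by
  intro w hw h0
  have h1 : HasDerivAt (fun x : ℝ => (⟨x, w.im⟩ : ℂ)) 1 w.re := by
    simp only [Complex.mk_eq_add_mul_I]
    exact Complex.ofRealCLM.hasDerivAt.add_const _
  exact (h w hw h0).hasFDerivAt.comp_hasDerivAt_of_eq w.re h1 rfl

theorem D2.of_diff {u : ℂ → ℝ} (h : ∀ w ∈ Sq, w ≠ 0 → DifferentiableAt ℝ u w) : D2 u (d2 u) := by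
  intro w hw h0
  have h1 : HasDerivAt (fun y : ℝ => (⟨w.re, y⟩ : ℂ)) I w.im := by
    simp only [Complex.mk_eq_add_mul_I]
    have := ((Complex.ofRealCLM.hasDerivAt (x := w.im)).mul_const I).const_add (w.re : ℂ)
    simpa using this
  exact (h w hw h0).hasFDerivAt.comp_hasDerivAt_of_eq w.im h1 rfl

theorem D1.ibp {u u₁ : ℂ → ℝ} (h : D1 u u₁) (hc : Cl 2 u₁) :
    ∫ w in Sq, u₁ w = ∫ t in (0 : ℝ)..1, (u ⟨1, t⟩ - u ⟨0, t⟩) := by
  rw [(fub hc.integrable).2.1, intervalIntegral.integral_of_le zero_le_one]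
  refine setIntegral_congr_fun measurableSet_Ioc fun t ht => ?_
  refine intervalIntegral.integral_eq_sub_of_hasDerivAt (f := fun x : ℝ => u ⟨x, t⟩)
    (fun s hs => ?_) ?_
  · rw [uIcc_of_le zero_le_one] at hs
    exact h ⟨s, t⟩ (mk_mem hs ⟨ht.1.le, ht.2⟩) (ne_of_im ht.1)
  · exact (hc.line1 ht).intervalIntegrable_of_Icc zero_le_one

theorem D2.ibp {u u₂ : ℂ → ℝ} (h : D2 u u₂) (hc : Cl 2 u₂) :
    ∫ w in Sq, u₂ w = ∫ s in (0 : ℝ)..1, (u ⟨s, 1⟩ - u ⟨s, 0⟩) := by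
  rw [(fub hc.integrable).1, intervalIntegral.integral_of_le zero_le_one]
  refine setIntegral_congr_fun measurableSet_Ioc fun s hs => ?_
  refine intervalIntegral.integral_eq_sub_of_hasDerivAt (f := fun y : ℝ => u ⟨s, y⟩)
    (fun t ht => ?_) ?_
  · rw [uIcc_of_le zero_le_one] at ht
    exact h ⟨s, t⟩ (mk_mem ⟨hs.1.le, hs.2⟩ ht) (ne_of_re hs.1)
  · exact (hc.line2 hs).intervalIntegrable_of_Icc zero_le_one

/-- The Cauchy-Schwarz inequality on an interval. -/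
theorem cs {g : ℝ → ℝ} {a b : ℝ} (hab : a ≤ b) (hg : ContinuousOn g (Icc a b)) :
    (∫ x in a..b, g x) ^ 2 ≤ (b - a) * ∫ x in a..b, g x ^ 2 := by
  rcases hab.eq_or_lt with rfl | hlt
  · simp
  have h1 := hg.intervalIntegrable_of_Icc (μ := volume) hab
  have h2 : IntervalIntegrable (fun x => g x ^ 2) volume a b :=
    (hg.pow 2).intervalIntegrable_of_Icc hab
  set k := ∫ x in a..b, g x with hk
  have hd : 0 < b - a := sub_pos.mpr hlt
  have h3 : 0 ≤ ∫ x in a..b, ((b - a) ^ 2 * g x ^ 2 - 2 * (b - a) * k * g x + k ^ 2) :=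
    intervalIntegral.integral_nonneg hab fun x _ => by nlinarith [sq_nonneg ((b - a) * g x - k)]
  rw [intervalIntegral.integral_add ((h2.const_mul _).sub (h1.const_mul _)) (by simp),
    intervalIntegral.integral_sub (h2.const_mul _) (h1.const_mul _),
    intervalIntegral.integral_const_mul, intervalIntegral.integral_const_mul,
    intervalIntegral.integral_const, smul_eq_mul, ← hk] at h3
  refine le_of_mul_le_mul_left ?_ hd
  nlinarith

/-- A Poincare inequality on the unit interval. -/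
theorem poin {g g' : ℝ → ℝ} (hd : ∀ x ∈ Icc (0 : ℝ) 1, HasDerivAt g (g' x) x)
    (hc : ContinuousOn g' (Icc 0 1)) :
    ∫ x in (0 : ℝ)..1, (g x - g (1 / 2)) ^ 2 ≤ (∫ x in (0 : ℝ)..1, g' x ^ 2) / 8 := by
  have hg : ContinuousOn (fun x => (g x - g (1 / 2)) ^ 2) (Icc 0 1) :=
    (ContinuousOn.sub (fun x hx => (hd x hx).continuousAt.continuousWithinAt)
      continuousOn_const).pow 2
  have hi : ∀ {k : ℝ → ℝ}, ContinuousOn k (Icc 0 1) → ∀ {a b : ℝ}, 0 ≤ a → a ≤ b → b ≤ 1 →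
      IntervalIntegrable k volume a b := fun hk _ _ ha hab hb =>
    (hk.mono (Icc_subset_Icc ha hb)).intervalIntegrable_of_Icc hab
  have key : ∀ a b c d : ℝ, 0 ≤ c → c ≤ a → a ≤ b → b ≤ d → d ≤ 1 →
      (g b - g a) ^ 2 ≤ (b - a) * ∫ x in c..d, g' x ^ 2 := by
    intro a b c d hc0 hca hab hbd hd1
    have hs : Icc a b ⊆ Icc 0 1 := Icc_subset_Icc (hc0.trans hca) (hbd.trans hd1)
    rw [← intervalIntegral.integral_eq_sub_of_hasDerivAt
      (fun x hx => hd x (hs (uIcc_of_le hab ▸ hx))) (hi hc (hc0.trans hca) hab (hbd.trans hd1))]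
    refine (cs hab (hc.mono hs)).trans (mul_le_mul_of_nonneg_left ?_ (sub_nonneg.mpr hab))
    exact intervalIntegral.integral_mono_interval hca hab hbd
      (Eventually.of_forall fun x => sq_nonneg _)
      (hi (hc.pow 2) hc0 (hca.trans (hab.trans hbd)) hd1)
  rw [← intervalIntegral.integral_add_adjacent_intervals (b := 1 / 2)
      (hi hg le_rfl (by norm_num) (by norm_num)) (hi hg (by norm_num) (by norm_num) le_rfl),
    ← intervalIntegral.integral_add_adjacent_intervals (b := 1 / 2) (f := fun x => g' x ^ 2)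
      (hi (hc.pow 2) le_rfl (by norm_num) (by norm_num))
      (hi (hc.pow 2) (by norm_num) (by norm_num) le_rfl)]
  set A := ∫ x in (0 : ℝ)..1 / 2, g' x ^ 2
  set B := ∫ x in (1 / 2 : ℝ)..1, g' x ^ 2
  have h1 : ∫ x in (0 : ℝ)..1 / 2, (g x - g (1 / 2)) ^ 2 ≤ ∫ x in (0 : ℝ)..1 / 2, (1 / 2 - x) * A := by
    refine intervalIntegral.integral_mono_on (by norm_num)
      (hi hg le_rfl (by norm_num) (by norm_num)) (Continuous.intervalIntegrable (by fun_prop) _ _)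
      fun x hx => ?_
    have := key x (1 / 2) 0 (1 / 2) le_rfl hx.1 hx.2 le_rfl (by norm_num)
    nlinarith
  have h2 : ∫ x in (1 / 2 : ℝ)..1, (g x - g (1 / 2)) ^ 2 ≤ ∫ x in (1 / 2 : ℝ)..1, (x - 1 / 2) * B :=
    intervalIntegral.integral_mono_on (by norm_num)
      (hi hg (by norm_num) (by norm_num) le_rfl) (Continuous.intervalIntegrable (by fun_prop) _ _)
      fun x hx => key (1 / 2) x (1 / 2) 1 (by norm_num) le_rfl hx.1 hx.2 le_rfl
  rw [intervalIntegral.integral_mul_const,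
    intervalIntegral.integral_sub (by simp) (by simp)] at h1 h2
  simp only [integral_id, intervalIntegral.integral_const, smul_eq_mul] at h1 h2
  linarith

end Pool.Agent.MP_6b3e96_gt.H20
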