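import Pool.Agent.MP_6b3e96_gt.H20.Kit

/-!
The local lower bound for the index form.
-/

open scoped ContDiff Topology RealInnerProductSpace MeasureTheory Real
open Set Filter Metric MeasureTheory Complex

noncomputable section

namespace Pool.Agent.MP_6b3e96_gt.H20

open Pool.Agent.MP_6b3e96_gt.H77

theorem D1.zero {u u₁ : ℂ → ℝ} (h : D1 u u₁) (hc : Cl 2 u₁) (hu : ContinuousOn u Sq)
    (z0 : ∫ t in (0 : ℝ)..1, u ⟨0, t⟩ = 0) (z1 : ∫ t in (0 : ℝ)..1, u ⟨1, t⟩ = 0) :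
    ∫ w in Sq, u₁ w = 0 := by
  have hl : ∀ s ∈ Icc (0 : ℝ) 1, IntervalIntegrable (fun t => u ⟨s, t⟩) volume 0 1 :=
    fun s hs => (hu.comp (cont2 s).continuousOn fun _ ht => mk_mem hs ht).intervalIntegrable_of_Icc
      zero_le_one
  rw [h.ibp hc, intervalIntegral.integral_sub (hl 1 (by simp)) (hl 0 (by simp)), z0, z1, sub_self]

theorem D2.zero {u u₂ : ℂ → ℝ} (h : D2 u u₂) (hc : Cl 2 u₂) (hu : ContinuousOn u Sq)
    (z0 : ∫ t in (0 : ℝ)..1, u ⟨t, 0⟩ = 0) (z1 : ∫ t in (0 : ℝ)..1, u ⟨t, 1⟩ = 0) :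
    ∫ w in Sq, u₂ w = 0 := by
  have hl : ∀ s ∈ Icc (0 : ℝ) 1, IntervalIntegrable (fun t => u ⟨t, s⟩) volume 0 1 :=
    fun s hs => (hu.comp (cont1 s).continuousOn fun _ ht => mk_mem ht hs).intervalIntegrable_of_Icc
      zero_le_one
  rw [h.ibp hc, intervalIntegral.integral_sub (hl 1 (by simp)) (hl 0 (by simp)), z0, z1, sub_self]

/-- Poincare inequality on the square for functions with mean zero on the vertical sides. -/
theorem poin2 {r r₁ r₂ : ℂ → ℝ} (hr : ContinuousOn r Sq) (h1 : D1 r r₁) (h2 : D2 r r₂)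
    (c1 : Cl 1 r₁) (c2 : Cl 1 r₂) (z0 : ∫ t in (0 : ℝ)..1, r ⟨0, t⟩ = 0)
    (z1 : ∫ t in (0 : ℝ)..1, r ⟨1, t⟩ = 0) :
    ∫ w in Sq, (r w ^ 2 - (r₁ w ^ 2 + r₂ w ^ 2) / 8) ≤ 0 := by
  have c0 : Cl 0 r := Cl.of_cont hr 0
  let π₁ : ℝ → ℝ := fun s => projIcc (0 : ℝ) 1 zero_le_one s
  have hπ : Continuous π₁ := continuous_subtype_val.comp continuous_projIcc
  have hπm : ∀ s, π₁ s ∈ Icc (0 : ℝ) 1 := fun s => (projIcc (0 : ℝ) 1 zero_le_one s).2
  have hπe : ∀ s ∈ Icc (0 : ℝ) 1, π₁ s = s := fun s hs => by simp only [π₁, projIcc_of_mem _ hs]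
  let h : ℝ → ℝ := fun s => ∫ t in (0 : ℝ)..1, r ⟨π₁ s, π₁ t⟩
  have hh : Continuous h := by
    refine intervalIntegral.continuous_parametric_intervalIntegral_of_continuous' ?_ 0 1
    refine hr.comp_continuous (f := fun p : ℝ × ℝ => (⟨π₁ p.1, π₁ p.2⟩ : ℂ)) ?_
      fun p => mk_mem (hπm _) (hπm _)
    simp only [Complex.mk_eq_add_mul_I]
    fun_prop
  have hhe : ∀ s ∈ Icc (0 : ℝ) 1, ∫ t in (0 : ℝ)..1, r ⟨s, t⟩ = h s := fun s hs =>
    intervalIntegral.integral_congr fun t ht => by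
      rw [uIcc_of_le zero_le_one] at ht
      simp only [hπe s hs, hπe t ht]
  let P : ℝ → ℝ := fun s => ∫ x in (1 / 2 : ℝ)..s, h x
  have hP : ∀ s, HasDerivAt P (h s) s := fun s => (hh.integral_hasStrictDerivAt _ s).hasDerivAt
  have hPc : Continuous P := continuous_iff_continuousAt.mpr fun s => (hP s).continuousAt
  have hP2 : ∫ s in (0 : ℝ)..1, P s ^ 2 ≤ (∫ s in (0 : ℝ)..1, h s ^ 2) / 8 := by
    have := poin (g := P) (g' := h) (fun x _ => hP x) hh.continuousOn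
    simpa [P] using this
  have ch : Cl 0 fun w => h w.re := Cl.of_cont (hh.comp Complex.continuous_re).continuousOn 0
  have cP : Cl 0 fun w => P w.re := Cl.of_cont (hPc.comp Complex.continuous_re).continuousOn 0
  have cΦ : Cl 2 fun w => r₁ w * P w.re + r w * h w.re :=
    ((c1.mul cP).mono (by norm_num)).add ((c0.mul ch).mono (by norm_num))
  have hline : ∀ s ∈ Icc (0 : ℝ) 1, IntervalIntegrable (fun t => r ⟨s, t⟩) volume 0 1 :=
    fun s hs => (hr.comp (cont2 s).continuousOn fun _ ht => mk_mem hs ht).intervalIntegrable_of_Icc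
      zero_le_one
  have hΦ : ∫ w in Sq, (r₁ w * P w.re + r w * h w.re) = 0 := by
    have hD : D1 (fun w => r w * P w.re) fun w => r₁ w * P w.re + r w * h w.re :=
      fun w hw h0 => (h1 w hw h0).mul (hP w.re)
    refine hD.zero cΦ (hr.mul (hPc.comp Complex.continuous_re).continuousOn) ?_ ?_
    · simp only [intervalIntegral.integral_mul_const, z0, zero_mul]
    · simp only [intervalIntegral.integral_mul_const, z1, zero_mul]
  have cΨ : Cl 2 fun w => r w ^ 2 - r₂ w ^ 2 / 8 - 2 * (r w * h w.re) + 8 * P w.re ^ 2 :=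
    (((c0.sq.mono (by norm_num)).sub (c2.sq.div 8)).sub
      (((c0.mul ch).mono (by norm_num)).cmul 2)).add ((cP.sq.mono (by norm_num)).cmul 8)
  have hΨ : ∫ w in Sq, (r w ^ 2 - r₂ w ^ 2 / 8 - 2 * (r w * h w.re) + 8 * P w.re ^ 2) ≤ 0 := by
    obtain ⟨e1, -, e3⟩ := fub cΨ.integrable
    rw [e1]
    have hb : ∫ s in Ioc (0 : ℝ) 1, (8 * P s ^ 2 - h s ^ 2) ≤ 0 := by
      rw [← intervalIntegral.integral_of_le zero_le_one, intervalIntegral.integral_sub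
        (Continuous.intervalIntegrable (by fun_prop) _ _)
        (Continuous.intervalIntegrable (by fun_prop) _ _), intervalIntegral.integral_const_mul]
      linarith
    refine le_trans (setIntegral_mono_on e3 ?_ measurableSet_Ioc fun s hs => ?_) hb
    · exact (Continuous.integrableOn_Icc (by fun_prop)).mono_set Ioc_subset_Icc_self
    have hs' : s ∈ Icc (0 : ℝ) 1 := ⟨hs.1.le, hs.2⟩
    have hp := poin (g := fun t => r ⟨s, t⟩) (g' := fun t => r₂ ⟨s, t⟩)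
      (fun t ht => h2 ⟨s, t⟩ (mk_mem hs' ht) (ne_of_re hs.1)) (c2.line2 hs)
    set c := r ⟨s, 1 / 2⟩
    have i1 : IntervalIntegrable (fun t => (r ⟨s, t⟩ - c) ^ 2) volume 0 1 :=
      (((c0.line2 hs).sub continuousOn_const).pow 2).intervalIntegrable_of_Icc zero_le_one
    have i2 : IntervalIntegrable (fun t => r₂ ⟨s, t⟩ ^ 2) volume 0 1 :=
      ((c2.line2 hs).pow 2).intervalIntegrable_of_Icc zero_le_one
    have e : ∀ t : ℝ, r ⟨s, t⟩ ^ 2 - r₂ ⟨s, t⟩ ^ 2 / 8 - 2 * (r ⟨s, t⟩ * h s) + 8 * P s ^ 2 =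
        (r ⟨s, t⟩ - c) ^ 2 - r₂ ⟨s, t⟩ ^ 2 / 8 + 2 * (c - h s) * r ⟨s, t⟩ +
          (8 * P s ^ 2 - c ^ 2) := fun t => by ring
    simp only [e]
    rw [intervalIntegral.integral_add ((i1.sub (i2.div_const _)).add ((hline s hs').const_mul _))
      (by simp), intervalIntegral.integral_add (i1.sub (i2.div_const _))
      ((hline s hs').const_mul _), intervalIntegral.integral_sub i1 (i2.div_const _),
      intervalIntegral.integral_div, intervalIntegral.integral_const_mul, hhe s hs',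
      intervalIntegral.integral_const, smul_eq_mul]
    nlinarith [sq_nonneg (c - h s)]
  have cL : Cl 2 fun w => r w ^ 2 - (r₁ w ^ 2 + r₂ w ^ 2) / 8 :=
    (c0.sq.mono (by norm_num)).sub ((c1.sq.add c2.sq).div 8)
  have := setIntegral_mono_on cL.integrable (cΨ.add (cΦ.cmul 2)).integrable Sq_meas
    fun w _ => by nlinarith [sq_nonneg (r₁ w + 8 * P w.re)]
  rw [integral_add cΨ.integrable (cΦ.cmul 2).integrable, integral_const_mul, hΦ] at this
  linarith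

theorem cl_inv : Cl 2 fun w : ℂ => (w.re + w.im)⁻¹ := by
  refine Cl.of_le (K := 1) (ContinuousOn.inv₀ (by fun_prop) fun w hw => (add_pos' hw.1 hw.2).ne')
    fun w hw h0 => ?_
  have := add_pos' hw h0
  rw [abs_of_pos (inv_pos.mpr this), inv_mul_le_iff₀ this, mul_one]
  exact norm_le_add hw

theorem cl_frac {a : ℂ → ℝ} (ha : Continuous a) (h : ∀ w ∈ Sq, 0 ≤ a w ∧ a w ≤ w.re + w.im) :
    Cl 0 fun w : ℂ => a w * (w.re + w.im)⁻¹ := by
  refine ⟨ha.continuousOn.mul cl_inv.1, 1, fun w hw h0 => ?_⟩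
  have := add_pos' hw h0
  simp only [pow_zero, mul_one, ← div_eq_mul_inv]
  exact pow_le_one₀ (div_nonneg (h w hw).1 this.le) ((div_le_one this).mpr (h w hw).2)

/-- Hardy inequality at the corner. -/
theorem hardy {r r₁ r₂ : ℂ → ℝ} (hr : ContinuousOn r Sq) (h1 : D1 r r₁) (h2 : D2 r r₂)
    (c1 : Cl 1 r₁) (c2 : Cl 1 r₂) :
    ∫ w in Sq, (r w ^ 2 * (w.re + w.im)⁻¹ - 9 / 2 * r w ^ 2 - (r₁ w ^ 2 + r₂ w ^ 2) / 3) ≤ 0 := by
  have c0 : Cl 0 r := Cl.of_cont hr 0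
  have x1 := cl_frac (a := fun w => w.re * (1 - w.re)) (by fun_prop) fun w hw => by
    obtain ⟨⟨h1, h2⟩, h3, h4⟩ := mem_Sq.mp hw
    constructor <;> nlinarith
  have x2 := cl_frac (a := fun w => w.im * (1 - w.im)) (by fun_prop) fun w hw => by
    obtain ⟨⟨h1, h2⟩, h3, h4⟩ := mem_Sq.mp hw
    constructor <;> nlinarith
  have y1 : Cl 2 fun w : ℂ => (1 - 2 * w.re - w.re * (1 - w.re) * (w.re + w.im)⁻¹) *
      (w.re + w.im)⁻¹ := ((Cl.of_cont (by fun_prop) 0).sub x1).mul cl_inv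
  have y2 : Cl 2 fun w : ℂ => (1 - 2 * w.im - w.im * (1 - w.im) * (w.re + w.im)⁻¹) *
      (w.re + w.im)⁻¹ := ((Cl.of_cont (by fun_prop) 0).sub x2).mul cl_inv
  have a1 := ((((c0.mul c1).mul x1).mono (by norm_num : _ ≤ 2)).cmul 2).add (c0.sq.mul y1)
  have a2 := ((((c0.mul c2).mul x2).mono (by norm_num : _ ≤ 2)).cmul 2).add (c0.sq.mul y2)
  have e1 := D1.ibp (u := fun w => r w ^ 2 * (w.re * (1 - w.re) * (w.re + w.im)⁻¹))
    (fun w hw h0 => by
      have hp := (add_pos' hw h0).ne'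
      have := ((h1 w hw h0).pow 2).mul (((hasDerivAt_id' w.re).mul
        ((hasDerivAt_id' w.re).const_sub 1)).mul (((hasDerivAt_id' w.re).add_const w.im).inv hp))
      refine this.congr_deriv ?_
      simp only [Pi.mul_apply, Pi.pow_apply, Pi.inv_apply]
      field_simp
      ring) a1
  have e2 := D2.ibp (u := fun w => r w ^ 2 * (w.im * (1 - w.im) * (w.re + w.im)⁻¹))
    (fun w hw h0 => by
      have hp := (add_pos' hw h0).ne'
      have := ((h2 w hw h0).pow 2).mul (((hasDerivAt_id' w.im).mul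
        ((hasDerivAt_id' w.im).const_sub 1)).mul (((hasDerivAt_id' w.im).const_add w.re).inv hp))
      refine this.congr_deriv ?_
      simp only [Pi.mul_apply, Pi.pow_apply, Pi.inv_apply]
      field_simp
      ring) a2
  simp only [sub_self, mul_zero, zero_mul, intervalIntegral.integral_zero] at e1 e2
  have cL : Cl 2 fun w : ℂ =>
      r w ^ 2 * (w.re + w.im)⁻¹ - 9 / 2 * r w ^ 2 - (r₁ w ^ 2 + r₂ w ^ 2) / 3 :=
    ((c0.sq.mul cl_inv).sub ((c0.sq.mono (by norm_num)).cmul _)).sub ((c1.sq.add c2.sq).div 3)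
  have := setIntegral_mono_on_ae cL.integrable (a1.add a2).integrable Sq_meas (by
    filter_upwards [ae_ne_zero] with w h0 hw
    have hp := add_pos' hw h0
    obtain ⟨⟨h1, h2⟩, h3, h4⟩ := mem_Sq.mp hw
    set s := w.re
    set t := w.im
    set q := (s + t)⁻¹ with hq
    have hq0 : 0 < q := inv_pos.mpr hp
    have hq1 : (s + t) * q = 1 := mul_inv_cancel₀ hp.ne'
    set X := s * (1 - s) * q
    set Y := t * (1 - t) * q
    have hX : 0 ≤ X ∧ X ≤ s * q := ⟨by positivity,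
      mul_le_mul_of_nonneg_right (by nlinarith) hq0.le⟩
    have hY : 0 ≤ Y ∧ Y ≤ t * q := ⟨by positivity,
      mul_le_mul_of_nonneg_right (by nlinarith) hq0.le⟩
    have hXY : X ^ 2 + Y ^ 2 ≤ 1 := by nlinarith [mul_nonneg hX.1 hY.1]
    have hdiv : q - 3 / 2 ≤ (1 - 2 * s - X) * q + (1 - 2 * t - Y) * q := by
      have e : (1 - 2 * s - X) * q + (1 - 2 * t - Y) * q =
          2 * q - 2 * ((s + t) * q) - (s + t) * q * q + ((s + t) * q) ^ 2 / 2 +
            ((s - t) * q) ^ 2 / 2 := by simp only [X, Y]; ring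
      rw [e, hq1]
      nlinarith [sq_nonneg ((s - t) * q)]
    have k1 := mul_le_mul_of_nonneg_left hdiv (sq_nonneg (r w))
    have k2 := mul_le_mul_of_nonneg_left hXY (sq_nonneg (r w))
    nlinarith [sq_nonneg (r₁ w + 3 * r w * X), sq_nonneg (r₂ w + 3 * r w * Y)])
  rw [integral_add a1.integrable a2.integrable, e1, e2] at this
  linarith

theorem cl_d {f : ℂ → ℝ} {C : ℝ}
    (hf : ∀ w ∈ Sq, w ≠ 0 → ContDiffAt ℝ 1 f w ∧ ‖fderiv ℝ f w‖ ^ 2 ≤ C / ‖w‖) (v : ℂ)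
    (hv : ‖v‖ = 1) : Cl 1 fun w => fderiv ℝ f w v := by
  refine ⟨fun w hw => (((hf w hw.1 hw.2).1.continuousAt_fderiv one_ne_zero).clm_apply
    continuousAt_const).continuousWithinAt, C, fun w hw h0 => ?_⟩
  have h1 := (fderiv ℝ f w).le_opNorm v
  rw [hv, mul_one, Real.norm_eq_abs] at h1
  have h2 := pow_le_pow_left₀ (abs_nonneg _) h1 2
  rw [sq_abs] at h2
  rw [pow_one, ← le_div_iff₀ (norm_pos_iff.mpr h0)]
  exact h2.trans (hf w hw h0).2

theorem cl_d0 {f : ℂ → ℝ} (hf : ContDiff ℝ 1 f) (v : ℂ) (a : ℕ) : Cl a fun w => fderiv ℝ f w v :=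
  Cl.of_cont ((hf.continuous_fderiv one_ne_zero).clm_apply continuous_const).continuousOn a

theorem pt {V Vp f φ f1 f2 φ1 φ2 σ1 σ2 s1 s2 m q : ℝ} (k1 : V ≤ Vp) (k2 : Vp ≤ 2.5 + 0.06 / m)
    (hm : 0 < m) (k3 : m⁻¹ ≤ 2 * q) :
    φ1 ^ 2 + φ2 ^ 2 - Vp * φ ^ 2 - ((φ1 - σ1) ^ 2 + (φ2 - σ2) ^ 2) / 0.35 -
      (s1 + s2 + Vp * φ) ^ 2 * m / 0.12 + 2 * ((f1 - φ1) * σ1 + (f - φ) * s1) +
      2 * ((f2 - φ2) * σ2 + (f - φ) * s2) ≤
    f1 ^ 2 + f2 ^ 2 - V * f ^ 2 + 106 / 25 * ((f - φ) ^ 2 - ((f1 - φ1) ^ 2 + (f2 - φ2) ^ 2) / 8) +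
      9 / 25 * ((f - φ) ^ 2 * q - 9 / 2 * (f - φ) ^ 2 - ((f1 - φ1) ^ 2 + (f2 - φ2) ^ 2) / 3) := by
  obtain ⟨r, rfl⟩ : ∃ r, f = φ + r := ⟨f - φ, by ring⟩
  obtain ⟨b1, rfl⟩ : ∃ r, f1 = φ1 + r := ⟨f1 - φ1, by ring⟩
  obtain ⟨b2, rfl⟩ : ∃ r, f2 = φ2 + r := ⟨f2 - φ2, by ring⟩
  simp only [add_sub_cancel_left]
  rw [show (0.35 : ℝ) = 7 / 20 by norm_num, show (0.12 : ℝ) = 3 / 25 by norm_num]
  rw [show (2.5 : ℝ) = 5 / 2 by norm_num, show (0.06 : ℝ) = 3 / 50 by norm_num,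
    div_eq_mul_inv _ m] at k2
  have hm1 : m * m⁻¹ = 1 := mul_inv_cancel₀ hm.ne'
  generalize m⁻¹ = n at *
  have k5 := mul_le_mul_of_nonneg_right k1 (sq_nonneg (φ + r))
  have k6 := mul_le_mul_of_nonneg_right k2 (sq_nonneg r)
  have k7 := mul_le_mul_of_nonneg_right k3 (sq_nonneg r)
  have k8 : ∀ g, 2 * (g * r) ≤ g ^ 2 * m / (3 / 25) + 3 / 25 * (n * r ^ 2) := fun g => by
    have := mul_nonneg hm.le (sq_nonneg (g - 3 / 25 * n * r))
    have e : m * (g - 3 / 25 * n * r) ^ 2 =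
        m * g ^ 2 - 6 / 25 * (m * n) * (g * r) + (3 / 25) ^ 2 * (m * n) * (n * r ^ 2) := by ring
    rw [e, hm1] at this
    linarith
  have k9 := k8 (s1 + s2 + Vp * φ)
  generalize (s1 + s2 + Vp * φ) ^ 2 * m = z at *
  nlinarith [sq_nonneg (φ1 - σ1 + 7 / 20 * b1), sq_nonneg (φ2 - σ2 + 7 / 20 * b2), sq_nonneg r]

theorem localBound : LocalStmt := by
  intro V Vp f φ σ₁ σ₂ C hV hVp hb hf hdf hφ hσ₁ hσ₂ z1 z2
  have cV : Cl 2 V := Cl.of_le (K := C) hV fun w hw h0 =>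
    (le_div_iff₀ (norm_pos_iff.mpr h0)).mp (hb w hw h0).1
  have cVp : Cl 2 Vp := Cl.of_le (K := 6) hVp fun w hw h0 => by
    have h1 := mul_le_mul_of_nonneg_right (hb w hw h0).2.2 (norm_nonneg w)
    have h2 := mx_pos hw h0
    have h3 : 0.06 / mx w * ‖w‖ ≤ 0.12 := by
      rw [div_mul_eq_mul_div, div_le_iff₀ h2]
      linarith [norm_le_add hw, add_le_mx w]
    nlinarith [norm_le_two hw]
  have cf : Cl 0 f := Cl.of_cont hf 0
  have cφ : Cl 0 φ := Cl.of_cont hφ.continuous.continuousOn 0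
  have cσ₁ : Cl 0 σ₁ := Cl.of_cont hσ₁.continuous.continuousOn 0
  have cσ₂ : Cl 0 σ₂ := Cl.of_cont hσ₂.continuous.continuousOn 0
  have f1 : Cl 1 (d1 f) := cl_d hdf 1 (by simp)
  have f2 : Cl 1 (d2 f) := cl_d hdf I (by simp)
  have φ1 : Cl 1 (d1 φ) := cl_d0 hφ 1 1
  have φ2 : Cl 1 (d2 φ) := cl_d0 hφ I 1
  have s1 : Cl 2 (d1 σ₁) := cl_d0 hσ₁ 1 2
  have s2 : Cl 2 (d2 σ₂) := cl_d0 hσ₂ I 2
  have hr : ContinuousOn (fun w => f w - φ w) Sq := hf.sub hφ.continuous.continuousOn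
  have cr := Cl.of_cont hr 0
  have r1 := f1.sub φ1
  have r2 := f2.sub φ2
  have df : ∀ w ∈ Sq, w ≠ 0 → DifferentiableAt ℝ f w := fun w hw h0 =>
    (hdf w hw h0).1.differentiableAt one_ne_zero
  have dg : ∀ {g : ℂ → ℝ}, ContDiff ℝ 1 g → ∀ w ∈ Sq, w ≠ 0 → DifferentiableAt ℝ g w :=
    fun hg w _ _ => hg.differentiable one_ne_zero w
  have h1 : D1 (fun w => f w - φ w) fun w => d1 f w - d1 φ w := fun w hw h0 =>
    (D1.of_diff df w hw h0).sub (D1.of_diff (dg hφ) w hw h0)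
  have h2 : D2 (fun w => f w - φ w) fun w => d2 f w - d2 φ w := fun w hw h0 =>
    (D2.of_diff df w hw h0).sub (D2.of_diff (dg hφ) w hw h0)
  have hP := poin2 hr h1 h2 r1 r2 (z1 1) (z1 2)
  have hH := hardy hr h1 h2 r1 r2
  have a1 := ((r1.mul cσ₁).mono (by norm_num : _ ≤ 2)).add (cr.mul s1)
  have a2 := ((r2.mul cσ₂).mono (by norm_num : _ ≤ 2)).add (cr.mul s2)
  have e1 := D1.zero (u := fun w => (f w - φ w) * σ₁ w)
    (u₁ := fun w => (d1 f w - d1 φ w) * σ₁ w + (f w - φ w) * d1 σ₁ w)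
    (fun w hw h0 => (h1 w hw h0).mul (D1.of_diff (dg hσ₁) w hw h0)) a1
    (hr.mul hσ₁.continuous.continuousOn) (z2 1) (z2 2)
  have e2 := D2.zero (u := fun w => (f w - φ w) * σ₂ w)
    (u₂ := fun w => (d2 f w - d2 φ w) * σ₂ w + (f w - φ w) * d2 σ₂ w)
    (fun w hw h0 => (h2 w hw h0).mul (D2.of_diff (dg hσ₂) w hw h0)) a2
    (hr.mul hσ₂.continuous.continuousOn) (z2 0) (z2 3)
  have cL := (((φ1.sq.add φ2.sq).sub (cVp.mul cφ.sq)).sub
    (((φ1.sub (cσ₁.mono (by norm_num))).sq.add (φ2.sub (cσ₂.mono (by norm_num))).sq).div 0.35)).sub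
    (((s1.add s2).add (cVp.mul cφ)).sq_mx.div 0.12)
  have cR := (f1.sq.add f2.sq).sub (cV.mul cf.sq)
  have cP := (cr.sq.mono (by norm_num : _ ≤ 2)).sub ((r1.sq.add r2.sq).div 8)
  have cH := ((cr.sq.mul cl_inv).sub ((cr.sq.mono (by norm_num)).cmul (9 / 2))).sub
    ((r1.sq.add r2.sq).div 3)
  have := setIntegral_mono_on_ae ((cL.add (a1.cmul 2)).add (a2.cmul 2)).integrable
    ((cR.add (cP.cmul (106 / 25))).add (cH.cmul (9 / 25))).integrable Sq_meas (by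
    filter_upwards [ae_ne_zero] with w h0 hw
    obtain ⟨-, k1, k2⟩ := hb w hw h0
    have hm := mx_pos hw h0
    have hp := add_pos' hw h0
    have k3 : (mx w)⁻¹ ≤ 2 * (w.re + w.im)⁻¹ := by
      rw [← div_eq_mul_inv, le_div_iff₀ hp, inv_mul_le_iff₀ hm]
      linarith [add_le_mx w]
    exact pt k1 ((le_abs_self _).trans k2) hm k3)
  rw [integral_add (cL.add (a1.cmul 2)).integrable (a2.cmul 2).integrable,
    integral_add cL.integrable (a1.cmul 2).integrable,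
    integral_add (cR.add (cP.cmul (106 / 25))).integrable (cH.cmul (9 / 25)).integrable,
    integral_add cR.integrable (cP.cmul (106 / 25)).integrable, integral_const_mul, integral_const_mul,
    integral_const_mul, integral_const_mul, e1, e2] at this
  unfold form
  linarith

end Pool.Agent.MP_6b3e96_gt.H20
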